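import Pool.Agent.H39.Block.Final

/-! The block sets theorem: the block sets conjecture holds for every template, in particular for
the template `112233`. -/

namespace Pool.Agent.Results.MP_f451a5_co.BlockSetsTheorem

/-- The block set in `[m]^n` with template `T`, blocks `I 0, ..., I (l - 1)` and letters `a i` at
the coordinates `i` outside the blocks: all words `w` with `w i = a i` outside the blocks which
take, on the blocks, the values of some rearrangement `T ∘ σ` of `T`. -/
def blockSet {m n l : ℕ} (T : Fin l → Fin m) (I : Fin l → Finset (Fin n)) (a : Fin n → Fin m) :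
    Set (Fin n → Fin m) :=
  {w | (∀ i, (∀ j, i ∉ I j) → w i = a i) ∧
    ∃ σ : Equiv.Perm (Fin l), ∀ j, ∀ i ∈ I j, w i = T (σ j)}

/-- For all `m ≥ 1` and `l` there is a degree `d ≥ 1` such that for every `k ≥ 1` there is
`n ≥ 1` such that for every `k`-colouring of `[m]^n` there are disjoint blocks of size `d` and
letters outside them for which the block sets, for all templates `T` of length `l` at the same
time, are monochromatic. The case `m = 3`, `l = 6`, `T = 112233` (letters written `0, 1, 2`) is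
the question. -/
theorem result (m l : ℕ) (hm : 0 < m) : ∃ d : ℕ, 0 < d ∧ ∀ k : ℕ, 0 < k → ∃ n : ℕ, 0 < n ∧
    ∀ c : (Fin n → Fin m) → Fin k, ∃ (I : Fin l → Finset (Fin n)) (a : Fin n → Fin m),
      (∀ j, (I j).card = d) ∧ (∀ j j', j ≠ j' → Disjoint (I j) (I j')) ∧
      ∀ T : Fin l → Fin m, ∃ col : Fin k, ∀ w ∈ blockSet T I a, c w = col := by
  obtain ⟨d, hd, h⟩ := H39.Block.block_main m l hm
  refine ⟨d, hd, fun k hk => ?_⟩
  obtain ⟨n, hn, h⟩ := h k
  refine ⟨n, hn, fun c => ?_⟩
  obtain ⟨I, a, hI, hdis, h⟩ := h c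
  refine ⟨I, a, hI, fun j j' hj => hdis hj, fun T => ?_⟩
  by_cases hex : ∃ w, w ∈ blockSet T I a
  · obtain ⟨w₀, hw₀⟩ := hex
    exact ⟨c w₀, fun w hw => h T w w₀ hw hw₀⟩
  · exact ⟨⟨0, hk⟩, fun w hw => absurd ⟨w, hw⟩ hex⟩

end Pool.Agent.Results.MP_f451a5_co.BlockSetsTheorem
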